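import Mathlib
import Pool.Agent.L7h19.IK.Stm
import Pool.Agent.L7h89.IT.Ava

/-!
# Project IK (owner helper19, problem MP_157626_nt): growth of the averages of the powers of the
majorant (`S_AVK`)
-/

set_option autoImplicit false
set_option linter.unusedSectionVars false

namespace Pool.Agent.L7h89.IK.Avk

open Finset Polynomial Pool.Agent.W262.RK Pool.Agent.W108.RK
open Pool.Agent.L7h19.IT Pool.Agent.L7h19.IK Pool.Agent.L7h89.IT.Ava

/-- **S_AVK** -/
theorem s_AVK : S_AVK := by
  intro J _ _ iB iC k z y s e _ _ hse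
  have h0 : ∀ j, s j * e j ≠ 0 := fun j => (sqf_of_mem hse j).ne_zero
  have hs0 : ∀ j, s j ≠ 0 := fun j h => h0 j (by rw [h, zero_mul])
  have he0 : ∀ j, e j ≠ 0 := fun j h => h0 j (by rw [h, mul_zero])
  have hs : s ∈ Tup J z y := by
    rw [mem_Tup] at hse ⊢
    refine ⟨fun j => (Dvd.intro _ rfl).trans (hse.1 j), fun i j hij => ?_⟩
    exact ((hse.2 i j hij).coprime_dvd_left (Dvd.intro _ rfl)).coprime_dvd_right (Dvd.intro _ rfl)
  have he : e ∈ Tup J z y := by
    rw [mem_Tup] at hse ⊢
    refine ⟨fun j => (Dvd.intro_left _ rfl).trans (hse.1 j), fun i j hij => ?_⟩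
    exact ((hse.2 i j hij).coprime_dvd_left (Dvd.intro_left _ rfl)).coprime_dvd_right
      (Dvd.intro_left _ rfl)
  have hpP : ∀ P, pP P (fun j => s j * e j) = pP P s * pP P e := fun P => by
    unfold pP
    rw [prod_mul_distrib]
  -- the common primes
  have hU : PW iB iC (fun j => s j * e j) = PW iB iC s ∪ PW iB iC e := by
    ext p
    rw [mem_union, mem_PW iB iC h0, mem_PW iB iC hs0, mem_PW iB iC he0]
    constructor
    · rintro ⟨j, h1, h2, h3⟩
      rw [Nat.primeFactors_mul (hs0 j) (he0 j), mem_union] at h3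
      rcases h3 with h3 | h3
      · exact Or.inl ⟨j, h1, h2, h3⟩
      · exact Or.inr ⟨j, h1, h2, h3⟩
    · rintro (⟨j, h1, h2, h3⟩ | ⟨j, h1, h2, h3⟩)
      · exact ⟨j, h1, h2, by rw [Nat.primeFactors_mul (hs0 j) (he0 j)]; exact mem_union_left _ h3⟩
      · exact ⟨j, h1, h2, by rw [Nat.primeFactors_mul (hs0 j) (he0 j)]; exact mem_union_right _ h3⟩
  have hcop : ∀ i j, (s i).Coprime (e j) := by
    intro i j
    by_cases hij : i = j
    · subst hij
      exact Nat.coprime_of_squarefree_mul (sqf_of_mem hse i)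
    · exact (((mem_Tup.1 hse).2 i j hij).coprime_dvd_left (Dvd.intro _ rfl)).coprime_dvd_right
        (Dvd.intro_left _ rfl)
  have hdis : Disjoint (PW iB iC s) (PW iB iC e) := by
    rw [Finset.disjoint_left]
    intro p h1 h2
    obtain ⟨i, -, -, hi⟩ := (mem_PW iB iC hs0 p).1 h1
    obtain ⟨j, -, -, hj⟩ := (mem_PW iB iC he0 p).1 h2
    exact (Finset.disjoint_left.1 (hcop i j).disjoint_primeFactors) hi hj
  -- the exponents
  set w : ℕ := (pP iB e).primeFactors.card + (pP iC e).primeFactors.card with hw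
  have hcard : ∀ P : J → Bool, (pP P e).primeFactors.card ≤ ∑ j, (e j).primeFactors.card := by
    intro P
    have hsub : (pP P e).primeFactors ⊆ univ.biUnion fun j => (e j).primeFactors := by
      intro p hp
      obtain ⟨j, -, hj⟩ := (mem_pP P he0 p).1 hp
      exact mem_biUnion.2 ⟨j, mem_univ _, hj⟩
    exact (card_le_card hsub).trans card_biUnion_le
  have hw2 : w ≤ 2 * ∑ j, (e j).primeFactors.card := by
    have h1 := hcard iB
    have h2 := hcard iC
    omega
  have hG : ∀ E, G3 E (pP iB (fun j => s j * e j)) (pP iC (fun j => s j * e j)) ≤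
      4 ^ w * G3 (E ∩ PW iB iC s) (pP iB s) (pP iC s) := by
    intro E
    have h1 := pP_sqf iB hse
    have h2 := pP_sqf iC hse
    rw [hpP] at h1 h2
    rw [hpP, hpP]
    refine (G3_mul_le h1 h2 E).trans (le_of_eq ?_)
    rw [G3_congr iB iC hs (E := E) (E' := E ∩ PW iB iC s)]
    intro p hp
    rw [mem_inter]
    exact ⟨fun h => ⟨h, hp⟩, fun h => h.1⟩
  have hG0 : ∀ E, G3 E (pP iB (fun j => s j * e j)) (pP iC (fun j => s j * e j)) ^ k ≤
      (4 ^ w) ^ k * G3 (E ∩ PW iB iC s) (pP iB s) (pP iC s) ^ k := fun E => by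
    rw [← mul_pow]
    exact pow_le_pow_left₀ (G3_nonneg _ _ _) (hG E) k
  unfold AVK
  have hsum : ∑ E ∈ (PW iB iC fun j => s j * e j).powerset,
      G3 (E ∩ PW iB iC s) (pP iB s) (pP iC s) ^ k =
      2 ^ (PW iB iC e).card * ∑ E ∈ (PW iB iC s).powerset, G3 E (pP iB s) (pP iC s) ^ k := by
    rw [hU]
    have h1 : ∑ E ∈ (PW iB iC s ∪ PW iB iC e).powerset,
        G3 (E ∩ PW iB iC s) (pP iB s) (pP iC s) ^ k =
        ∑ x ∈ (PW iB iC s).powerset ×ˢ (PW iB iC e).powerset,
          G3 x.1 (pP iB s) (pP iC s) ^ k := by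
      symm
      refine Finset.sum_bij' (fun x _ => x.1 ∪ x.2)
        (fun E _ => (E ∩ PW iB iC s, E ∩ PW iB iC e)) ?_ ?_ ?_ ?_ ?_
      · intro x hx
        rw [mem_product, mem_powerset, mem_powerset] at hx
        rw [mem_powerset]
        exact union_subset_union hx.1 hx.2
      · intro E hE
        rw [mem_product, mem_powerset, mem_powerset]
        exact ⟨inter_subset_right, inter_subset_right⟩
      · intro x hx
        rw [mem_product, mem_powerset, mem_powerset] at hx
        have e1 : (x.1 ∪ x.2) ∩ PW iB iC s = x.1 := by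
          ext p
          rw [mem_inter, mem_union]
          constructor
          · rintro ⟨h | h, h'⟩
            · exact h
            · exact absurd (hx.2 h) ((Finset.disjoint_left.1 hdis) h')
          · intro h
            exact ⟨Or.inl h, hx.1 h⟩
        have e2 : (x.1 ∪ x.2) ∩ PW iB iC e = x.2 := by
          ext p
          rw [mem_inter, mem_union]
          constructor
          · rintro ⟨h | h, h'⟩
            · exact absurd h' ((Finset.disjoint_left.1 hdis) (hx.1 h))
            · exact h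
          · intro h
            exact ⟨Or.inr h, hx.2 h⟩
        simp only [e1, e2]
      · intro E hE
        rw [mem_powerset] at hE
        simp only
        rw [← inter_union_distrib_left]
        exact inter_eq_left.2 hE
      · intro x hx
        rw [mem_product, mem_powerset, mem_powerset] at hx
        have e1 : (x.1 ∪ x.2) ∩ PW iB iC s = x.1 := by
          ext p
          rw [mem_inter, mem_union]
          constructor
          · rintro ⟨h | h, h'⟩
            · exact h
            · exact absurd (hx.2 h) ((Finset.disjoint_left.1 hdis) h')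
          · intro h
            exact ⟨Or.inl h, hx.1 h⟩
        simp only [e1]
    rw [h1, sum_product_right]
    simp only [sum_const, card_powerset, nsmul_eq_mul]
    push_cast
    rfl
  have hc : (PW iB iC fun j => s j * e j).card = (PW iB iC s).card + (PW iB iC e).card := by
    rw [hU, card_union_of_disjoint hdis]
  have hS0 : 0 ≤ ∑ E ∈ (PW iB iC s).powerset, G3 E (pP iB s) (pP iC s) ^ k :=
    sum_nonneg fun E _ => pow_nonneg (G3_nonneg _ _ _) k
  calc (1 / 2 : ℝ) ^ (PW iB iC fun j => s j * e j).card *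
        ∑ E ∈ (PW iB iC fun j => s j * e j).powerset,
          G3 E (pP iB fun j => s j * e j) (pP iC fun j => s j * e j) ^ k
      ≤ (1 / 2 : ℝ) ^ (PW iB iC fun j => s j * e j).card *
        ∑ E ∈ (PW iB iC fun j => s j * e j).powerset,
          (4 ^ w) ^ k * G3 (E ∩ PW iB iC s) (pP iB s) (pP iC s) ^ k :=
        mul_le_mul_of_nonneg_left (sum_le_sum fun E _ => hG0 E) (by positivity)
    _ = (4 ^ w) ^ k * ((1 / 2 : ℝ) ^ (PW iB iC s).card *
          ∑ E ∈ (PW iB iC s).powerset, G3 E (pP iB s) (pP iC s) ^ k) := by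
        rw [← mul_sum, hsum, hc, pow_add]
        have : ((1 : ℝ) / 2) ^ (PW iB iC e).card * 2 ^ (PW iB iC e).card = 1 := by
          rw [← mul_pow]; norm_num
        linear_combination (((1 : ℝ) / 2) ^ (PW iB iC s).card * (4 ^ w) ^ k *
          ∑ E ∈ (PW iB iC s).powerset, G3 E (pP iB s) (pP iC s) ^ k) * this
    _ ≤ (16 ^ k) ^ (∑ j, (e j).primeFactors.card) * ((1 / 2 : ℝ) ^ (PW iB iC s).card *
          ∑ E ∈ (PW iB iC s).powerset, G3 E (pP iB s) (pP iC s) ^ k) := by
        refine mul_le_mul_of_nonneg_right ?_ (mul_nonneg (by positivity) hS0)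
        rw [show (16 : ℝ) = 4 ^ 2 from by norm_num, ← pow_mul, ← pow_mul, ← pow_mul]
        refine pow_le_pow_right₀ (by norm_num) ?_
        calc w * k ≤ (2 * ∑ j, (e j).primeFactors.card) * k := Nat.mul_le_mul_right _ hw2
          _ = _ := by ring

end Pool.Agent.L7h89.IK.Avk

theorem Pool.Agent.L7h89.IK.s_AVK : Pool.Agent.L7h19.IK.S_AVK := Pool.Agent.L7h89.IK.Avk.s_AVK
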